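import Pool.Agent.N347.LA.Stm

set_option autoImplicit false

/-!
# LA/STEP: one splitting step (helper281, project LA of helper347)
-/

namespace Pool.Agent.N281.LASTEP

open Finset Pool.Agent.N347.LA

/-- the class of `x`, as a set -/
def cls {X : Type} (G : SimpleGraph X) (x : X) : Set X := {y | G.Reachable x y}

theorem cls_eq {X : Type} (G : SimpleGraph X) (x y : X) :
    cls G x = cls G y ↔ G.connectedComponentMk x = G.connectedComponentMk y := by
  rw [SimpleGraph.ConnectedComponent.eq]
  constructor
  · intro h
    have h1 : y ∈ cls G y := SimpleGraph.Reachable.refl y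
    rw [← h] at h1
    exact h1
  · intro h
    ext z
    exact ⟨fun hz => h.symm.trans hz, fun hz => h.trans hz⟩

theorem isolated {A : Type} (m : A → A → ℕ) (z : A → ℕ) (a : A) (y : Option A)
    (h : (Gr m z a).Reachable (some a) y) : y = some a := by
  obtain ⟨q⟩ := h
  cases q with
  | nil => rfl
  | cons h _ =>
    exfalso
    unfold Gr at h
    rw [SimpleGraph.fromRel_adj] at h
    obtain ⟨_, (⟨u, v, hu, _, hua, _⟩ | ⟨u, hu, _, hua, _⟩) | (⟨u, v, _, hv, _, hva, _⟩ | ⟨u, _, hv, _⟩)⟩ := h
    · exact hua (Option.some.inj hu).symm
    · exact hua (Option.some.inj hu).symm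
    · exact hva (Option.some.inj hv).symm
    · exact absurd hv (by simp)

theorem sum_sub {k : ℕ} (f g : Fin k → ℕ) (h : ∀ c, g c ≤ f c) :
    ∑ c, (f c - g c) + ∑ c, g c = ∑ c, f c := by
  rw [← sum_add_distrib]
  exact sum_congr rfl fun c _ => Nat.sub_add_cancel (h c)

open Classical in
theorem stepC {V A : Type} [Fintype A] (R : V → V → Prop)
    (hR : ∀ u v, R u v → R v u) (k : ℕ) (p : A → V)
    (ω : A → ℕ) (a : A) (ha : 2 ≤ ω a) (h : HasState R k p ω) :
    HasState R k (fun o : Option A => o.elim (p a) p)
      (fun o : Option A => o.elim 1 (fun x => if x = a then ω a - 1 else ω x)) := by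
  obtain ⟨m, z, H⟩ := h
  obtain ⟨w, hw⟩ : ∃ w, w = ω a := ⟨_, rfl⟩
  rw [← hw] at ha
  obtain ⟨s, hs⟩ : ∃ s : A → ℕ, s = fun b =>
    if R (p a) (p b) then (if b = a then w - 1 else ω b) else 0 := ⟨_, rfl⟩
  have hs1 : ∀ b, ∑ c, m c a b = w * s b := by
    intro b
    rw [hs]
    dsimp only
    by_cases hRb : R (p a) (p b)
    · rw [if_pos hRb]
      by_cases hb : b = a
      · subst hb
        rw [if_pos rfl, H.loop b hRb, ← hw]
      · rw [if_neg hb, H.adj a b (Ne.symm hb) hRb, ← hw]
    · rw [if_neg hRb, mul_zero]
      exact sum_eq_zero fun c _ => H.nadj c a b hRb
  have hs2 : ∑ c, z c a = w * (2 * k - ∑ b, s b) := by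
    have e1 : ∑ c, (∑ b, m c a b + z c a) = k * (2 * w) := by
      rw [sum_congr rfl fun c _ => H.deg c a, sum_const, card_univ, Fintype.card_fin, smul_eq_mul,
        ← hw]
    rw [sum_add_distrib, sum_comm, sum_congr rfl fun b _ => hs1 b, ← mul_sum] at e1
    rw [Nat.mul_sub]
    have e2 : w * (2 * k) = k * (2 * w) := by ring
    rw [e2]
    omega
  obtain ⟨t, ht1, ht2, ht3, ht4⟩ := Stm.transport k w ha (fun c => ends (m c) (z c) a)
    (fun o : Option A => o.elim (2 * k - ∑ b, s b) s)
    (fun c => cls (Gr (m c) (z c) a))
    (by
      intro c
      rw [Fintype.sum_option]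
      have := H.deg c a
      unfold ends
      simp only [Option.elim_none, Option.elim_some]
      rw [hw]
      omega)
    (by
      intro x
      cases x with
      | none => exact hs2
      | some b => exact hs1 b)
    (by
      intro c j
      by_cases hj : ∃ x0, cls (Gr (m c) (z c) a) x0 = j
      · obtain ⟨x0, rfl⟩ := hj
        have h5 := Stm.parity (m c) (z c) ω (H.symm c) (H.even c) (H.deg c) a
          ((Gr (m c) (z c) a).connectedComponentMk x0)
        have h6 : (univ.filter fun x => cls (Gr (m c) (z c) a) x = cls (Gr (m c) (z c) a) x0) =
            univ.filter fun x => (Gr (m c) (z c) a).connectedComponentMk x =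
              (Gr (m c) (z c) a).connectedComponentMk x0 := by
          ext x
          simp only [mem_filter, mem_univ, true_and, cls_eq]
        rw [h6]
        exact h5
      · have h6 : (univ.filter fun x => cls (Gr (m c) (z c) a) x = j) = ∅ := by
          ext x
          simp only [mem_filter, mem_univ, true_and, notMem_empty, iff_false]
          exact fun h => hj ⟨x, h⟩
        rw [h6, sum_empty]
        exact ⟨0, rfl⟩)
  have hta : ∀ c, 2 * t c (some a) ≤ m c a a := by
    intro c
    have h5 := ht4 c (cls (Gr (m c) (z c) a) (some a))
    have h6 : (univ.filter fun x => cls (Gr (m c) (z c) a) x =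
        cls (Gr (m c) (z c) a) (some a)) = {some a} := by
      ext x
      simp only [mem_filter, mem_univ, true_and, mem_singleton, cls_eq]
      constructor
      · intro h
        rw [SimpleGraph.ConnectedComponent.eq] at h
        exact isolated _ _ _ _ h.symm
      · rintro rfl
        rfl
    rw [h6, sum_singleton, sum_singleton] at h5
    exact h5
  have htm : ∀ c b, t c (some b) ≤ m c a b := fun c b => ht1 c (some b)
  have htz : ∀ c, t c none ≤ z c a := fun c => ht1 c none
  have hT : ∀ c, t c none + ∑ b, t c (some b) = 2 := by
    intro c
    rw [← Fintype.sum_option]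
    exact ht2 c
  have hr : ∀ b, R (p a) (p b) → ∑ c, t c (some b) = if b = a then w - 1 else ω b := by
    intro b hb
    have := ht3 (some b)
    simp only [Option.elim_some] at this
    rw [this, hs]
    dsimp only
    rw [if_pos hb]
  refine ⟨fun c => mNew (m c) a (t c), fun c => zNew (z c) a (t c), ?_⟩
  refine
    { pos := ?_
      symm := ?_
      even := ?_
      deg := ?_
      adj := ?_
      loop := ?_
      nadj := ?_
      conn := ?_ }
  · -- pos
    intro x
    cases x with
    | none => exact le_rfl
    | some u =>
      simp only [Option.elim_some]
      split_ifs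
      · omega
      · exact H.pos u
  · -- symm
    intro c x y
    cases x with
    | none =>
      cases y with
      | none => rfl
      | some v => rfl
    | some u =>
      cases y with
      | none => rfl
      | some v =>
        simp only [mNew]
        by_cases hu : u = a
        · by_cases hv : v = a
          · rw [if_pos hu, if_pos hv, if_pos hv, if_pos hu]
          · rw [if_pos hu, if_neg hv, if_neg hv, if_pos hu, H.symm c a v]
        · by_cases hv : v = a
          · rw [if_neg hu, if_pos hv, if_pos hv, if_neg hu, H.symm c u a]
          · rw [if_neg hu, if_neg hv, if_neg hv, if_neg hu, H.symm c u v]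
  · -- even
    intro c x
    cases x with
    | none => exact ⟨0, rfl⟩
    | some u =>
      simp only [mNew]
      by_cases hu : u = a
      · rw [if_pos hu, if_pos hu]
        exact (Nat.even_sub (hta c)).2 (iff_of_true (H.even c a) (even_two_mul _))
      · rw [if_neg hu, if_neg hu]
        exact H.even c u
  · -- deg
    intro c x
    rw [Fintype.sum_option]
    cases x with
    | none =>
      simp only [mNew, zNew, Option.elim_none]
      have := hT c
      omega
    | some u =>
      simp only [zNew, Option.elim_some]
      by_cases hu : u = a
      · subst hu
        rw [if_pos rfl, if_pos rfl]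
        have e1 : ∑ v, (mNew (m c) u (t c) (some u) (some v) + t c (some v) +
            (if v = u then t c (some u) else 0)) = ∑ v, m c u v := by
          refine sum_congr rfl fun v _ => ?_
          simp only [mNew]
          by_cases hv : v = u
          · subst hv
            simp only [if_true]
            have := hta c
            omega
          · simp only [if_true, if_neg hv]
            have := htm c v
            omega
        rw [sum_add_distrib, sum_add_distrib, sum_ite_eq' univ u, if_pos (mem_univ u)] at e1
        have e2 : mNew (m c) u (t c) (some u) none = t c (some u) := rfl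
        rw [e2]
        have e3 := H.deg c u
        have e4 := hT c
        have e5 := htz c
        rw [← hw] at e3 ⊢
        omega
      · rw [if_neg hu, if_neg hu]
        have e1 : ∑ v, (mNew (m c) a (t c) (some u) (some v) +
            (if v = a then t c (some u) else 0)) = ∑ v, m c u v := by
          refine sum_congr rfl fun v _ => ?_
          simp only [mNew]
          rw [if_neg hu]
          by_cases hv : v = a
          · subst hv
            simp only [if_true]
            have := htm c u
            rw [H.symm c v u] at this
            omega
          · rw [if_neg hv, if_neg hv]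
            omega
        rw [sum_add_distrib, sum_ite_eq' univ a, if_pos (mem_univ a)] at e1
        have e2 : mNew (m c) a (t c) (some u) none = t c (some u) := rfl
        rw [e2]
        have e3 := H.deg c u
        omega
  · -- adj
    intro x y hxy hRxy
    cases x with
    | none =>
      cases y with
      | none => exact absurd rfl hxy
      | some v =>
        simp only [mNew, Option.elim_none, Option.elim_some, one_mul] at hRxy ⊢
        rw [hr v hRxy, hw]
    | some u =>
      cases y with
      | none =>
        simp only [mNew, Option.elim_none, Option.elim_some, mul_one] at hRxy ⊢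
        rw [hr u (hR _ _ hRxy), hw]
      | some v =>
        have huv : u ≠ v := fun h => hxy (by rw [h])
        simp only [mNew, Option.elim_some] at hRxy ⊢
        by_cases hu : u = a
        · subst hu
          have hv : v ≠ u := huv.symm
          simp only [if_true, if_neg hv]
          have e1 := sum_sub (fun c => m c u v) (fun c => t c (some v)) (fun c => htm c v)
          rw [H.adj u v huv hRxy, hr v hRxy, if_neg hv] at e1
          have e2 : (ω u - 1) * ω v = ω u * ω v - ω v := by rw [Nat.sub_mul, one_mul]
          rw [e2, ← e1, Nat.add_sub_cancel]
        · by_cases hv : v = a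
          · subst hv
            simp only [if_true, if_neg hu]
            have e1 := sum_sub (fun c => m c u v) (fun c => t c (some u))
              (fun c => by rw [H.symm c u v]; exact htm c u)
            rw [H.adj u v huv hRxy, hr u (hR _ _ hRxy), if_neg hu] at e1
            have e2 : ω u * (ω v - 1) = ω u * ω v - ω u := by rw [Nat.mul_sub, mul_one]
            rw [e2, ← e1, Nat.add_sub_cancel]
          · simp only [if_neg hu, if_neg hv]
            exact H.adj u v huv hRxy
  · -- loop
    intro x hRx
    cases x with
    | none => simp [mNew]
    | some u =>
      simp only [mNew, Option.elim_some] at hRx ⊢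
      by_cases hu : u = a
      · subst hu
        simp only [if_true]
        have e1 := sum_sub (fun c => m c u u) (fun c => 2 * t c (some u)) hta
        rw [← mul_sum, H.loop u hRx, hr u hRx, if_pos rfl, ← hw] at e1
        rw [← hw]
        obtain ⟨j, rfl⟩ : ∃ j, w = j + 2 := ⟨w - 2, by omega⟩
        have e2 : j + 2 - 1 = j + 1 := by omega
        rw [e2] at e1 ⊢
        have e3 : j + 1 - 1 = j := by omega
        rw [e3]
        have e4 : (j + 2) * (j + 1) = (j + 1) * j + 2 * (j + 1) := by ring
        rw [e4] at e1
        exact Nat.add_right_cancel e1
      · simp only [if_neg hu]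
        exact H.loop u hRx
  · -- nadj
    intro c x y hRxy
    cases x with
    | none =>
      cases y with
      | none => rfl
      | some v =>
        simp only [mNew, Option.elim_none, Option.elim_some] at hRxy ⊢
        have e1 := htm c v
        rw [H.nadj c a v hRxy] at e1
        exact Nat.le_zero.1 e1
    | some u =>
      cases y with
      | none =>
        simp only [mNew, Option.elim_none, Option.elim_some] at hRxy ⊢
        have e1 := htm c u
        rw [H.nadj c a u (fun h => hRxy (hR _ _ h))] at e1
        exact Nat.le_zero.1 e1
      | some v =>
        simp only [mNew, Option.elim_some] at hRxy ⊢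
        by_cases hu : u = a
        · subst hu
          by_cases hv : v = u
          · subst hv
            simp only [if_true]
            rw [H.nadj c v v hRxy, Nat.zero_sub]
          · simp only [if_true, if_neg hv]
            rw [H.nadj c u v hRxy, Nat.zero_sub]
        · by_cases hv : v = a
          · subst hv
            simp only [if_true, if_neg hu]
            rw [H.nadj c u v hRxy, Nat.zero_sub]
          · simp only [if_neg hu, if_neg hv]
            exact H.nadj c u v hRxy
  · -- conn
    intro c
    refine Stm.conn_split (m c) (z c) (H.symm c) (H.conn c) a (t c) (ht1 c) ?_ ?_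
    · rw [ht2 c]
      norm_num
    · intro C
      refine SimpleGraph.ConnectedComponent.ind (fun x0 => ?_) C
      have h5 := ht4 c (cls (Gr (m c) (z c) a) x0)
      have h6 : (univ.filter fun x => cls (Gr (m c) (z c) a) x = cls (Gr (m c) (z c) a) x0) =
          univ.filter fun x => (Gr (m c) (z c) a).connectedComponentMk x =
            (Gr (m c) (z c) a).connectedComponentMk x0 := by
        ext x
        simp only [mem_filter, mem_univ, true_and, cls_eq]
      rw [h6] at h5
      exact h5

/-- LA/STEP -/
theorem step {V A : Type} [Fintype A] [DecidableEq A] (R : V → V → Prop)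
    (hR : ∀ u v, R u v → R v u) (k : ℕ) (p : A → V)
    (ω : A → ℕ) (a : A) (ha : 2 ≤ ω a) (h : HasState R k p ω) :
    HasState R k (fun o : Option A => o.elim (p a) p)
      (fun o : Option A => o.elim 1 (fun x => if x = a then ω a - 1 else ω x)) := by
  have := stepC R hR k p ω a ha h
  convert this

end Pool.Agent.N281.LASTEP
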