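import Mathlib
import Pool.Agent.N795.PI.Stm

/-!
# Project PI (helper795), MP_ede089_mp: the statement `Adm` (proof by helper281)
-/

set_option autoImplicit false

namespace Pool.Agent.N795.PI

open Filter Topology MeasureTheory

namespace H281

theorem norm_fd (x : E3) (hx : x ≠ 0) :
    HasFDerivAt (fun y : E3 => ‖y‖) ((1 / ‖x‖) • innerSL ℝ x) x := by
  have hx' : 0 < ‖x‖ := norm_pos_iff.mpr hx
  have h1 : HasFDerivAt (fun y : E3 => ‖y‖ ^ 2) (2 • innerSL ℝ x) x :=
    (hasStrictFDerivAt_norm_sq x).hasFDerivAt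
  have h2 := h1.sqrt (by positivity)
  have h3 : (fun y : E3 => √(‖y‖ ^ 2)) = fun y : E3 => ‖y‖ := by
    funext y
    exact Real.sqrt_sq (norm_nonneg _)
  rw [h3, Real.sqrt_sq (norm_nonneg _)] at h2
  have h4 : (1 / (2 * ‖x‖)) • (2 • innerSL ℝ x) = (1 / ‖x‖) • innerSL ℝ x := by
    ext v
    simp only [smul_apply, smul_eq_mul, nsmul_eq_mul]
    push_cast
    field_simp
  rw [h4] at h2
  exact h2

theorem pd_rad4 (f : ℝ → ℝ) (x : E3) (hx : x ≠ 0) (hf : DifferentiableAt ℝ f ‖x‖) (i : Fin 3) :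
    pd i (fun y => rad f y ^ 4) x = 4 * f ‖x‖ ^ 3 * deriv f ‖x‖ * (x i / ‖x‖) := by
  have h1 : HasFDerivAt (fun y : E3 => f ‖y‖) (deriv f ‖x‖ • ((1 / ‖x‖) • innerSL ℝ x)) x :=
    hf.hasDerivAt.comp_hasFDerivAt x (norm_fd x hx)
  have h2 := h1.pow 4
  have h3 : fderiv ℝ (fun y => rad f y ^ 4) x = _ := h2.fderiv
  unfold pd
  rw [h3]
  simp only [smul_apply, innerSL_apply_apply, smul_eq_mul,
    EuclideanSpace.inner_single_right]
  simp
  ring

theorem integrand (f : ℝ → ℝ) (hf : SmoothRad f) (t : ℝ) (ht : 0 < t)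
    (w : Metric.sphere (0 : E3) 1) :
    t ^ 2 * ∑ i, ∑ j, (pd i (fun y => if i = j then rad f y ^ 4 else 0) (t • (w : E3))
      - pd j (fun y => rad f y ^ 4) (t • (w : E3))) * (w : E3) j =
      t ^ 2 * (-8 * f t ^ 3 * deriv f t) := by
  have hw : ‖(w : E3)‖ = 1 := by simpa using w.2
  have hn : ‖t • (w : E3)‖ = t := by
    rw [norm_smul, hw, mul_one, Real.norm_eq_abs, abs_of_pos ht]
  have hne : t • (w : E3) ≠ 0 := by
    rw [← norm_pos_iff, hn]
    exact ht
  have hd : DifferentiableAt ℝ f ‖t • (w : E3)‖ := by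
    rw [hn]
    exact (hf t ht).2.differentiableAt (by norm_num)
  have h1 : ∀ j, pd j (fun y => rad f y ^ 4) (t • (w : E3)) =
      4 * f t ^ 3 * deriv f t * (w : E3) j := by
    intro j
    rw [pd_rad4 f _ hne hd, hn]
    have : (t • (w : E3)) j = t * (w : E3) j := rfl
    rw [this]
    field_simp
  have h2 : ∀ i j, pd i (fun y => if i = j then rad f y ^ 4 else 0) (t • (w : E3)) =
      if i = j then 4 * f t ^ 3 * deriv f t * (w : E3) j else 0 := by
    intro i j
    by_cases hij : i = j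
    · subst hij
      simp only [if_true]
      exact h1 i
    · simp only [hij, if_false]
      unfold pd
      simp
  have h3 : ∑ j, (w : E3) j ^ 2 = 1 := by
    have := EuclideanSpace.norm_sq_eq (w : E3)
    rw [hw] at this
    simp only [Real.norm_eq_abs, sq_abs] at this
    linarith
  simp only [h1, h2]
  rw [Fin.sum_univ_three] at h3
  simp only [Fin.sum_univ_three]
  simp
  linear_combination (-8 * t ^ 2 * f t ^ 3 * deriv f t) * h3

theorem mass : ((volume : Measure E3).toSphere).real Set.univ = 4 * Real.pi := by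
  rw [Measure.toSphere_real_apply_univ, finrank_euclideanSpace_fin]
  rw [Measure.real, EuclideanSpace.volume_ball_fin_three]
  simp
  rw [ENNReal.toReal_ofReal (by positivity)]
  ring

end H281

open H281 in
/-- ADM -/
theorem adm_pf : Adm := by
  intro f hf t ht
  unfold admFlux
  simp_rw [integrand f hf t ht]
  rw [integral_const, mass, smul_eq_mul]
  have := Real.pi_pos
  field_simp
  ring

end Pool.Agent.N795.PI
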