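import Pool.Agent.N795.SO.Stm

/-!
Project SO (helper795), part ROOT (helper281): the largest root of `x = 1 - exp (- u x)`.
-/

set_option autoImplicit false

namespace Pool.Agent.N795.SO

namespace RootAux

open Real

theorem exp_neg_le (y : ℝ) (hy : 0 ≤ y) : exp (-y) ≤ 1 - y + y ^ 2 := by
  have h1 : y + 1 ≤ exp y := add_one_le_exp y
  have h2 : exp (-y) ≤ 1 / (1 + y) := by
    rw [exp_neg, inv_eq_one_div]
    exact one_div_le_one_div_of_le (by linarith) (by linarith)
  refine h2.trans ?_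
  rw [div_le_iff₀ (by linarith)]
  have : 0 ≤ y ^ 3 := by positivity
  nlinarith

theorem exp_neg_ge (y : ℝ) : 1 - y ≤ exp (-y) := by
  have := add_one_le_exp (-y)
  linarith

theorem mem (u : ℝ) (_hu : 0 ≤ u) : 0 ≤ giant u ∧ giant u ≤ 1 ∧
    giant u = 1 - exp (-(u * giant u)) := by
  have hc : IsCompact {x : ℝ | 0 ≤ x ∧ x ≤ 1 ∧ x = 1 - exp (-(u * x))} := by
    have h1 : {x : ℝ | 0 ≤ x ∧ x ≤ 1 ∧ x = 1 - exp (-(u * x))} =
        Set.Icc (0 : ℝ) 1 ∩ {x : ℝ | x = 1 - exp (-(u * x))} := by
      ext x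
      constructor
      · rintro ⟨a, b, c⟩
        exact ⟨⟨a, b⟩, c⟩
      · rintro ⟨⟨a, b⟩, c⟩
        exact ⟨a, b, c⟩
    rw [h1]
    refine isCompact_Icc.inter_right ?_
    exact isClosed_eq continuous_id (by fun_prop)
  have hn : {x : ℝ | 0 ≤ x ∧ x ≤ 1 ∧ x = 1 - exp (-(u * x))}.Nonempty :=
    ⟨0, le_rfl, zero_le_one, by simp⟩
  exact hc.sSup_mem hn

theorem le_giant (u a : ℝ) (h0 : 0 ≤ a) (h1 : a ≤ 1) (h2 : a - 1 + exp (-(u * a)) ≤ 0) :
    a ≤ giant u := by
  have hcont : ContinuousOn (fun x : ℝ => x - 1 + exp (-(u * x))) (Set.Icc a 1) := by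
    apply Continuous.continuousOn
    fun_prop
  have hmem : (0 : ℝ) ∈ Set.Icc ((fun x : ℝ => x - 1 + exp (-(u * x))) a)
      ((fun x : ℝ => x - 1 + exp (-(u * x))) 1) := by
    refine ⟨h2, ?_⟩
    show 0 ≤ (1 : ℝ) - 1 + exp (-(u * 1))
    have := exp_pos (-(u * 1))
    linarith
  obtain ⟨x, hx, hx2⟩ := intermediate_value_Icc h1 hcont hmem
  have hx3 : x - 1 + exp (-(u * x)) = 0 := hx2
  refine hx.1.trans ?_
  refine le_csSup ⟨1, ?_⟩ ⟨h0.trans hx.1, hx.2, by linarith⟩
  rintro y ⟨_, hy, _⟩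
  exact hy

theorem giant_pos (u : ℝ) (hu : 1 < u) : 0 < giant u := by
  have hu2 : 0 < 2 * u ^ 2 := by positivity
  have ha0 : 0 < (u - 1) / (2 * u ^ 2) := div_pos (by linarith) hu2
  refine lt_of_lt_of_le ha0 (le_giant u _ ha0.le ?_ ?_)
  · rw [div_le_one hu2]
    nlinarith
  · obtain ⟨a, ha⟩ : ∃ a, a = (u - 1) / (2 * u ^ 2) := ⟨_, rfl⟩
    rw [← ha] at ha0 ⊢
    have h1 := exp_neg_le (u * a) (by positivity)
    have h2 : u ^ 2 * a = (u - 1) / 2 := by
      rw [ha]
      field_simp
    have h3 : a - 1 + exp (-(u * a)) ≤ a * (1 - u + u ^ 2 * a) := by nlinarith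
    refine h3.trans ?_
    rw [h2]
    have : 1 - u + (u - 1) / 2 ≤ 0 := by linarith
    exact mul_nonpos_of_nonneg_of_nonpos ha0.le this

theorem giant_mono (u u' : ℝ) (hu : 0 ≤ u) (huu : u ≤ u') : giant u ≤ giant u' := by
  obtain ⟨h0, h1, h2⟩ := mem u hu
  refine le_giant u' _ h0 h1 ?_
  have h3 : exp (-(u' * giant u)) ≤ exp (-(u * giant u)) := by
    apply exp_le_exp.2
    have := mul_le_mul_of_nonneg_right huu h0
    linarith
  linarith

end RootAux

open RootAux Real in
theorem root : Root := by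
  refine ⟨?_, ?_, ?_, ?_, ?_, ?_, ?_⟩
  · intro u hu
    obtain ⟨h0, h1, h2⟩ := mem u hu
    refine ⟨h0, h1, h2, fun x hx0 hx1 hx2 => le_giant u x hx0 hx1 (by linarith)⟩
  · intro u hu hu1
    obtain ⟨h0, h1, h2⟩ := mem u hu
    by_contra hne
    have hpos : 0 < giant u := lt_of_le_of_ne h0 (Ne.symm hne)
    rcases hu.eq_or_lt with hu0 | hu0
    · rw [← hu0, zero_mul, neg_zero, exp_zero, sub_self] at h2
      rw [← hu0] at hne
      exact hne h2
    · have h3 : -(u * giant u) ≠ 0 := by
        have : 0 < u * giant u := mul_pos hu0 hpos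
        linarith
      have h4 := add_one_lt_exp h3
      have h5 : u * giant u ≤ 1 * giant u := mul_le_mul_of_nonneg_right hu1 h0
      linarith
  · exact giant_pos
  · exact giant_mono
  · intro δ hδ
    have hc := giant_pos 2 (by norm_num)
    refine ⟨max 2 (1 / (δ * giant 2)), lt_of_lt_of_le (by norm_num) (le_max_left _ _), ?_⟩
    intro u hu
    have hu2 : 2 ≤ u := (le_max_left _ _).trans hu
    have hu3 : 1 / (δ * giant 2) ≤ u := (le_max_right _ _).trans hu
    obtain ⟨h0, h1, h2⟩ := mem u (by linarith)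
    have h3 := giant_mono 2 u (by norm_num) hu2
    have h4 : 1 / δ ≤ u * giant u := by
      rw [div_le_iff₀ (by positivity)] at hu3
      rw [div_le_iff₀ hδ]
      have h5 : u * giant 2 ≤ u * giant u := mul_le_mul_of_nonneg_left h3 (by linarith)
      nlinarith
    have h5 : exp (-(u * giant u)) ≤ δ := by
      have h6 : 1 / δ ≤ exp (u * giant u) := by
        have := add_one_le_exp (u * giant u)
        linarith
      rw [exp_neg]
      rw [div_le_iff₀ hδ] at h6
      rw [inv_le_comm₀ (exp_pos _) hδ, ← one_div]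
      rw [div_le_iff₀ hδ]
      exact h6
    linarith
  · intro u h r F hu hh hF0 hF1 hF hr
    obtain ⟨h0, h1, h2⟩ := mem u hu
    by_contra hlt
    push Not at hlt
    obtain ⟨θ, hθ⟩ : ∃ θ, θ = giant u := ⟨_, rfl⟩
    rw [← hθ] at h0 h1 h2 hlt
    have hθ0 : 0 < θ := lt_of_le_of_lt hF0 hlt
    obtain ⟨l, hl⟩ : ∃ l, l = F / θ := ⟨_, rfl⟩
    have hl0 : 0 ≤ l := by rw [hl]; positivity
    have hl1 : l ≤ 1 := by rw [hl, div_le_one hθ0]; exact hlt.le
    have hlF : F = l * θ := by rw [hl]; field_simp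
    have hconv := convexOn_exp.2 (Set.mem_univ (-h)) (Set.mem_univ (-(h + u * θ)))
      (show 0 ≤ 1 - l by linarith) hl0 (by ring)
    simp only [smul_eq_mul] at hconv
    have e1 : (1 - l) * -h + l * -(h + u * θ) = -(h + u * F) := by rw [hlF]; ring
    rw [e1] at hconv
    have e2 : exp (-(h + u * θ)) = exp (-h) * (1 - θ) := by
      rw [neg_add, exp_add]
      congr 1
      linarith
    rw [e2] at hconv
    have e3 : exp (-u) ≤ 1 - θ := by
      have : exp (-u) ≤ exp (-(u * θ)) := by
        apply exp_le_exp.2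
        have := mul_le_mul_of_nonneg_left h1 hu
        linarith
      linarith
    have e4 : exp (-h) < 1 := by
      rw [exp_lt_one_iff]
      linarith
    have e5 : 0 < exp (-u) := exp_pos _
    have e6 : exp (-u) ≤ 1 := by linarith
    have e7 : F - 1 + exp (-(h + u * F)) ≤
        (1 - l) * (-(1 - exp (-h))) + l * (-((1 - exp (-h)) * (1 - θ))) := by
      rw [hlF] at hconv ⊢
      linarith
    have e8 : (1 - l) * (-(1 - exp (-h))) ≤ (1 - l) * (-((1 - exp (-h)) * exp (-u))) := by
      apply mul_le_mul_of_nonneg_left _ (by linarith)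
      nlinarith
    have e9 : l * (-((1 - exp (-h)) * (1 - θ))) ≤ l * (-((1 - exp (-h)) * exp (-u))) := by
      apply mul_le_mul_of_nonneg_left _ hl0
      nlinarith
    linarith
  · intro u r δ F hu hδ hF0 hF1 hF hr
    obtain ⟨h0, h1, h2⟩ := mem u hu
    by_contra hlt
    push Not at hlt
    have hmax := le_giant u
    obtain ⟨θ, hθ⟩ : ∃ θ, θ = giant u := ⟨_, rfl⟩
    rw [← hθ] at h0 h1 h2 hlt hmax
    have hexp : exp (-(u * θ)) = 1 - θ := by linarith
    have hcl : u * (1 - θ) ≤ 1 := by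
      by_contra hcon
      push Not at hcon
      have hu1 : 1 < u := by nlinarith
      obtain ⟨y, hy⟩ : ∃ y, y = ((1 - θ) * u - 1) / u ^ 2 := ⟨_, rfl⟩
      have hy0 : 0 < y := by
        rw [hy]
        apply div_pos (by linarith) (by positivity)
      have hyu : u ^ 2 * y = (1 - θ) * u - 1 := by
        rw [hy]
        field_simp
      have hy1 : θ + y ≤ 1 := by
        have e1 : u * (u * y) ≤ u * (1 - θ) := by nlinarith
        have e2 : u * y ≤ 1 - θ := le_of_mul_le_mul_left e1 (by linarith)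
        have e3 : y ≤ u * y := by nlinarith
        linarith
      have e1 := exp_neg_le (u * y) (by positivity)
      have e2 : θ + y - 1 + exp (-(u * (θ + y))) ≤ 0 := by
        rw [mul_add, neg_add, exp_add, hexp]
        have e3 : (1 - θ) * exp (-(u * y)) ≤ (1 - θ) * (1 - u * y + (u * y) ^ 2) :=
          mul_le_mul_of_nonneg_left e1 (by linarith)
        have e4 : (1 - θ) * (u ^ 2 * y) ≤ 1 * (u ^ 2 * y) :=
          mul_le_mul_of_nonneg_right (by linarith) (by positivity)
        have e5 : y * (1 - (1 - θ) * u + (1 - θ) * (u ^ 2 * y)) ≤ 0 :=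
          mul_nonpos_of_nonneg_of_nonpos hy0.le (by linarith)
        nlinarith
      have e3 := hmax (θ + y) (by linarith) hy1 e2
      linarith
    obtain ⟨s, hs⟩ : ∃ s, s = F - θ := ⟨_, rfl⟩
    have hsδ : δ < s := by rw [hs]; linarith
    have hs0 : 0 < s := by linarith
    have hFs : F = θ + s := by rw [hs]; ring
    have k1 : exp (-(u * F)) = (1 - θ) * exp (-(u * s)) := by
      rw [hFs, mul_add, neg_add, exp_add, hexp]
    have hus : exp (-(u * s)) ≤ 1 := by
      rw [exp_le_one_iff]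
      have : 0 ≤ u * s := by positivity
      linarith
    have k2 : (1 - θ) * (1 - exp (-(u * s))) ≤ 1 - exp (-s) := by
      rcases le_total u 1 with hu1 | hu1
      · have e1 : exp (-s) ≤ exp (-(u * s)) := by
          apply exp_le_exp.2
          nlinarith
        have e2 : (1 - θ) * (1 - exp (-(u * s))) ≤ 1 * (1 - exp (-(u * s))) :=
          mul_le_mul_of_nonneg_right (by linarith) (by linarith)
        linarith
      · have hup : 0 < u := by linarith
        have hui : 0 ≤ 1 / u := by positivity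
        have hui1 : 1 / u ≤ 1 := by rw [div_le_one hup]; exact hu1
        have hconv := convexOn_exp.2 (Set.mem_univ (-(u * s))) (Set.mem_univ (0 : ℝ))
          hui (show 0 ≤ 1 - 1 / u by linarith) (by ring)
        simp only [smul_eq_mul, mul_zero, add_zero, exp_zero, mul_one] at hconv
        have e1 : 1 / u * -(u * s) = -s := by field_simp
        rw [e1] at hconv
        have e2 : 1 - θ ≤ 1 / u := by
          rw [le_div_iff₀ hup]
          linarith
        have e3 : (1 - θ) * (1 - exp (-(u * s))) ≤ 1 / u * (1 - exp (-(u * s))) :=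
          mul_le_mul_of_nonneg_right e2 (by linarith)
        linarith
    have k3 : δ - 1 + exp (-δ) ≤ s - 1 + exp (-s) := by
      have e1 : exp (-s) = exp (-δ) * exp (-(s - δ)) := by
        rw [← exp_add]
        congr 1
        ring
      have e2 := exp_neg_ge (s - δ)
      have e3 : exp (-δ) ≤ 1 := by
        rw [exp_le_one_iff]
        linarith
      have e4 : 0 < exp (-δ) := exp_pos _
      have e5 : exp (-δ) * (1 - (s - δ)) ≤ exp (-δ) * exp (-(s - δ)) :=
        mul_le_mul_of_nonneg_left e2 e4.le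
      have e6 : exp (-δ) * (s - δ) ≤ 1 * (s - δ) :=
        mul_le_mul_of_nonneg_right e3 (by linarith)
      rw [e1]
      linarith
    rw [k1] at hF
    linarith

end Pool.Agent.N795.SO
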