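import Pool.Agent.N819.UD.Stm

/-!
# Project UD (helper819), MP_6de9fc_gt: the statement S_EXCH (proof by helper281)
-/

set_option autoImplicit false

namespace Pool.Agent.N281.UDEXCH

open Pool.Agent.N819.UD Pool.Agent.N819.LT

theorem z_self (x : ZMod 2) : x + x = 0 := by revert x; decide

theorem z_eq (x y : ZMod 2) (h : x + y = 0) : x = y := by revert x y; decide

theorem z_mul (x y : ZMod 2) (h : x * y = 0) (hy : y ≠ 0) : x = 0 := by revert x y; decide

theorem z_or : ∀ x : ZMod 2, x = 0 ∨ x = 1 := by decide

theorem z_iff (x y : ZMod 2) (h : x = 1 ↔ y = 1) : x + y = 0 := by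
  have hx : x = 0 ∨ x = 1 := z_or x
  have hy : y = 0 ∨ y = 1 := z_or y
  rcases hx with rfl | rfl
  · rcases hy with rfl | rfl
    · exact z_self 0
    · exact absurd (h.2 rfl) (by decide)
  · have := h.1 rfl
    rw [this]
    exact z_self 1

open Classical in
/-- exchange along a chordless alternating cycle -/
theorem main : Pool.Agent.N819.UD.S_EXCH := by
  intro V E _ _ _ _ p q lab S a W β σ _ hsp hdual hexp hW hWS hβ hσ hinj hP hQ
  obtain ⟨S', hS'⟩ : ∃ S' : Set E, ∀ e, e ∈ S' ↔ ((e ∈ S ∧ ∀ e1 ∈ W, e ≠ β e1) ∨ e ∈ W) :=
    ⟨{e | (e ∈ S ∧ ∀ e1 ∈ W, e ≠ β e1) ∨ e ∈ W}, fun e => Iff.rfl⟩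
  have mpS : ∀ e, e ∈ S → mp p q S e = p e := fun e he => if_pos he
  have mpN : ∀ e, e ∉ S → mp p q S e = q e := fun e he => if_neg he
  -- the key step
  have key : ∀ v : V → ZMod 2, (∀ e ∈ S', v (p e) = v (lab e)) →
      ∀ b ∈ S, v (mp p q S b) + v (lab b) = 0 := by
    intro v hv
    have hin : ∀ b ∈ S, (∀ e1 ∈ W, b ≠ β e1) → v (mp p q S b) + v (lab b) = 0 := by
      intro b hb h
      rw [mpS b hb, hv b ((hS' b).2 (Or.inl ⟨hb, h⟩))]
      exact z_self _
    intro b hb
    by_cases hbW : ∃ e1 ∈ W, b = β e1
    · obtain ⟨e1, he1, rfl⟩ := hbW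
      have h1 : v (p e1) + v (lab e1) = 0 := by
        rw [hv e1 ((hS' e1).2 (Or.inr he1))]
        exact z_self _
      rw [hexp v (p e1) (lab e1), Finset.sum_eq_single (β e1)] at h1
      · exact z_mul _ _ h1 ((hP e1 he1 e1 he1).2 rfl)
      · intro f _ hf
        by_cases hfS : f ∈ S
        · by_cases hfW : ∃ e2 ∈ W, f = β e2
          · obtain ⟨e2, he2, rfl⟩ := hfW
            have h2 : a (β e2) (p e1) + a (β e2) (lab e1) = 0 := by
              by_contra h3
              have h4 := (hP e1 he1 e2 he2).1 h3
              exact hf (by rw [h4])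
            rw [h2, mul_zero]
          · rw [hin f hfS (fun e2 he2 h3 => hfW ⟨e2, he2, h3⟩), zero_mul]
        · have h2 : a f (p e1) + a f (lab e1) = 0 := by
            apply z_iff
            refine hsp (fun x => a f x = 1) ?_ e1
            intro e he
            have h3 := hdual f e
            have hne : ¬ e = f := by
              intro h
              rw [h] at he
              exact hfS he
            rw [mpS e he, if_neg hne] at h3
            have h4 := z_eq _ _ h3
            constructor
            · intro h5
              rw [← h4]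
              exact h5
            · intro h5
              change a f (p e) = 1
              rw [h4]
              exact h5
          rw [h2, mul_zero]
      · intro h
        exact absurd (Finset.mem_univ _) h
    · exact hin b hb (fun e1 he1 h => hbW ⟨e1, he1, h⟩)
  refine ⟨S', ?_, ?_, ?_⟩
  · intro h
    obtain ⟨e, he⟩ := hW
    have h1 : e ∈ S' := (hS' e).2 (Or.inr he)
    rw [h] at h1
    exact hWS e he h1
  · -- connectedness
    have mpS' : ∀ e, e ∈ S' → mp p q S' e = p e := fun e he => if_pos he
    have mpN' : ∀ e, e ∉ S' → mp p q S' e = q e := fun e he => if_neg he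
    intro x0 y0
    let u : V → ZMod 2 := fun x => if Relation.ReflTransGen (Joined (mp p q S') lab) x0 x then 1 else 0
    have hu : ∀ e, u (mp p q S' e) = u (lab e) := by
      intro e
      have h3 : Relation.ReflTransGen (Joined (mp p q S') lab) x0 (mp p q S' e) ↔
          Relation.ReflTransGen (Joined (mp p q S') lab) x0 (lab e) :=
        ⟨fun h => h.tail ⟨e, Or.inl ⟨rfl, rfl⟩⟩, fun h => h.tail ⟨e, Or.inr ⟨rfl, rfl⟩⟩⟩
      change (if _ then (1 : ZMod 2) else 0) = if _ then (1 : ZMod 2) else 0
      by_cases h4 : Relation.ReflTransGen (Joined (mp p q S') lab) x0 (mp p q S' e)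
      · rw [if_pos h4, if_pos (h3.1 h4)]
      · rw [if_neg h4, if_neg (fun h => h4 (h3.2 h))]
    have hin : ∀ b ∈ S, u (mp p q S b) + u (lab b) = 0 := by
      apply key u
      intro e he
      rw [← mpS' e he]
      exact hu e
    have hout : ∀ f, f ∉ S → f ∉ W → u (mp p q S f) + u (lab f) = 0 := by
      intro f hf hfW
      have h1 : f ∉ S' := by
        intro h
        rcases (hS' f).1 h with h2 | h2
        · exact hf h2.1
        · exact hfW h2
      have h2 := hu f
      rw [mpN' f h1] at h2
      rw [mpN f hf, h2]
      exact z_self _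
    have hsurj : ∀ e1 ∈ W, ∃ e2 ∈ W, σ e2 = e1 := by
      have h1 : Set.SurjOn σ (W : Set E) (W : Set E) :=
        Finset.surjOn_of_injOn_of_card_le σ (fun e he => hσ e he)
          (fun e he e' he' h => hinj e he e' he' h) le_rfl
      intro e1 he1
      obtain ⟨e2, he2, h2⟩ := h1 he1
      exact ⟨e2, he2, h2⟩
    have hall : ∀ f, u (mp p q S f) + u (lab f) = 0 := by
      intro f
      by_cases hf : f ∈ S
      · exact hin f hf
      · by_cases hfW : f ∈ W
        · obtain ⟨e2, he2, rfl⟩ := hsurj f hfW
          have hb : β e2 ∉ S' := by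
            intro h
            rcases (hS' _).1 h with h2 | h2
            · exact h2.2 e2 he2 rfl
            · exact hWS _ h2 (hβ e2 he2)
          have h1 : u (q (β e2)) + u (lab (β e2)) = 0 := by
            rw [← mpN' _ hb, hu]
            exact z_self _
          rw [hexp u (q (β e2)) (lab (β e2)), Finset.sum_eq_single (σ e2)] at h1
          · exact z_mul _ _ h1 ((hQ e2 he2 (σ e2) (hσ e2 he2)).2 rfl)
          · intro g _ hg
            by_cases hgS : g ∈ S
            · rw [hin g hgS, zero_mul]
            · by_cases hgW : g ∈ W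
              · have h2 : a g (q (β e2)) + a g (lab (β e2)) = 0 := by
                  by_contra h3
                  exact hg ((hQ e2 he2 g hgW).1 h3)
                rw [h2, mul_zero]
              · rw [hout g hgS hgW, zero_mul]
          · intro h
            exact absurd (Finset.mem_univ _) h
        · exact hout f hf hfW
    have h1 : u x0 + u y0 = 0 := by
      rw [hexp u x0 y0]
      refine Finset.sum_eq_zero fun f _ => ?_
      rw [hall f, zero_mul]
    have h2 : u x0 = u y0 := z_eq _ _ h1
    have h3 : u x0 = 1 := if_pos Relation.ReflTransGen.refl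
    by_contra h4
    have h5 : u y0 = 0 := if_neg h4
    rw [h3, h5] at h2
    exact one_ne_zero h2
  · -- spanning
    intro P hPP
    apply hsp P
    intro b hb
    let v : V → ZMod 2 := fun x => if P x then 1 else 0
    have hv : ∀ e ∈ S', v (p e) = v (lab e) := by
      intro e he
      have h1 := hPP e he
      change (if _ then (1 : ZMod 2) else 0) = if _ then (1 : ZMod 2) else 0
      by_cases h4 : P (p e)
      · rw [if_pos h4, if_pos (h1.1 h4)]
      · rw [if_neg h4, if_neg (fun h => h4 (h1.2 h))]
    have h1 := key v hv b hb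
    rw [mpS b hb] at h1
    have h2 : v (p b) = v (lab b) := z_eq _ _ h1
    constructor
    · intro h3
      by_contra h4
      have h5 : v (p b) = 1 := if_pos h3
      have h6 : v (lab b) = 0 := if_neg h4
      rw [h5, h6] at h2
      exact one_ne_zero h2
    · intro h3
      by_contra h4
      have h5 : v (lab b) = 1 := if_pos h3
      have h6 : v (p b) = 0 := if_neg h4
      rw [h5, h6] at h2
      exact zero_ne_one h2

end Pool.Agent.N281.UDEXCH
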